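import Mathlib
import Pool.Agent.MVO.StmtsC
import Pool.Agent.Helper65_MVO.TAC

set_option autoImplicit false

/-! Row TCC of the squad MVO: tightness of class c1 over `O3`. -/

namespace Pool.Agent.MVO.H94

open Pool.Agent.Helper14_MV Pool.Agent.Helper2_MV Pool.Agent.MVO
open Pool.Agent.MVO.H65.TacRow

namespace TccRow

theorem bt_mono {β ρ : FIC} (h : β ≤ ρ) {k : ℕ} {a b : ℕ → ℕ} {i : ℕ} (hb : Bt β k a b i) :
    Bt ρ k a b i := fun e => rr_mono h (hb e)

theorem deg_pos {k : ℕ} {a : ℕ → ℕ} (h : ∀ j ≤ k, a j = 0) : deg k a = 0 := by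
  unfold deg
  apply Finset.sum_eq_zero
  intro j hj
  rw [Finset.mem_range] at hj
  exact h j (by omega)

theorem deg_single {k i : ℕ} {b : ℕ → ℕ} (hi : i ≤ k) (h : ∀ j ≤ k, j ≠ i → b j = 0) :
    deg k b = b i := by
  unfold deg
  apply Finset.sum_eq_single i
  · intro j hj hji
    rw [Finset.mem_range] at hj
    exact h j (by omega) hji
  · intro hn
    exact absurd (Finset.mem_range.mpr (by omega)) hn

/-! ### truncations -/

theorem mem_tr {P : Finset ℕ} {m j : ℕ} :
    j ∈ tr m P ↔ j ∈ P ∧ (P.filter (fun i => i < j)).card < m := by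
  unfold tr
  rw [Finset.mem_filter]

theorem tr_tr {P : Finset ℕ} {m n : ℕ} (h : n ≤ m) : tr n (tr m P) = tr n P := by
  ext j
  rw [mem_tr, mem_tr, mem_tr]
  constructor
  · rintro ⟨⟨h1, h2⟩, h3⟩
    refine ⟨h1, ?_⟩
    have h4 : (tr m P).filter (fun i => i < j) = P.filter (fun i => i < j) := by
      ext i
      rw [Finset.mem_filter, Finset.mem_filter, mem_tr]
      constructor
      · rintro ⟨⟨h5, _⟩, h6⟩
        exact ⟨h5, h6⟩
      · rintro ⟨h5, h6⟩
        refine ⟨⟨h5, ?_⟩, h6⟩
        refine lt_of_le_of_lt (Finset.card_le_card ?_) h2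
        intro t ht
        rw [Finset.mem_filter] at ht ⊢
        exact ⟨ht.1, by omega⟩
    rw [h4] at h3
    exact h3
  · rintro ⟨h1, h2⟩
    refine ⟨⟨h1, by omega⟩, ?_⟩
    refine lt_of_le_of_lt (Finset.card_le_card ?_) h2
    intro t ht
    rw [Finset.mem_filter] at ht ⊢
    exact ⟨tr_sub ht.1, ht.2⟩

/-- the truncation of a set with its maximum removed -/
theorem tr_erase {P : Finset ℕ} {m l : ℕ} (hl : l ∈ P) (hmax : ∀ j ∈ P, j ≤ l)
    (hm : m < P.card) : tr m P = tr m (P.erase l) := by
  ext j
  rw [mem_tr, mem_tr, Finset.mem_erase]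
  have h2 : ∀ j, j ≤ l → (P.erase l).filter (fun i => i < j) = P.filter (fun i => i < j) := by
    intro j hj
    ext i
    rw [Finset.mem_filter, Finset.mem_filter, Finset.mem_erase]
    constructor
    · rintro ⟨⟨_, h5⟩, h6⟩
      exact ⟨h5, h6⟩
    · rintro ⟨h5, h6⟩
      exact ⟨⟨by omega, h5⟩, h6⟩
  constructor
  · rintro ⟨h1, h3⟩
    have hj := hmax j h1
    refine ⟨⟨?_, h1⟩, ?_⟩
    · intro hjl
      have h4 : P.filter (fun i => i < j) = P.erase l := by
        rw [hjl]
        ext i
        rw [Finset.mem_filter, Finset.mem_erase]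
        constructor
        · rintro ⟨h5, h6⟩
          exact ⟨by omega, h5⟩
        · rintro ⟨h5, h6⟩
          have := hmax i h6
          exact ⟨h6, by omega⟩
      rw [h4, Finset.card_erase_of_mem hl] at h3
      omega
    · rw [h2 j hj]
      exact h3
  · rintro ⟨⟨h0, h1⟩, h3⟩
    rw [h2 j (hmax j h1)] at h3
    exact ⟨h1, h3⟩

theorem card_tr {m : ℕ} : ∀ (n : ℕ) (P : Finset ℕ), P.card = m + n → (tr m P).card = m := by
  intro n
  induction n with
  | zero =>
    intro P hP
    rw [tr_eq_self (by omega)]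
    exact hP
  | succ n ih =>
    intro P hP
    have hne : P.Nonempty := Finset.card_pos.1 (by omega)
    obtain ⟨l, hl, hmax⟩ := exists_max hne
    rw [tr_erase hl hmax (by omega)]
    apply ih
    rw [Finset.card_erase_of_mem hl]
    omega

theorem card_tr' {m : ℕ} {P : Finset ℕ} (h : m ≤ P.card) : (tr m P).card = m :=
  card_tr (P.card - m) P (by omega)

theorem tr_pred {P : Finset ℕ} {l : ℕ} (hl : l ∈ P) (hmax : ∀ j ∈ P, j ≤ l) :
    tr (P.card - 1) P = P.erase l := by
  have hc : 1 ≤ P.card := Finset.card_pos.2 ⟨l, hl⟩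
  rw [tr_erase hl hmax (by omega)]
  apply tr_eq_self
  rw [Finset.card_erase_of_mem hl]

/-- `tr` of a set with a new maximum -/
theorem tr_insert {X : Finset ℕ} {j : ℕ} (h : ∀ t ∈ X, t < j) : tr X.card (insert j X) = X := by
  have hj : j ∉ X := fun hj => lt_irrefl j (h j hj)
  have h1 := tr_pred (P := insert j X) (l := j) (Finset.mem_insert_self j X) (by
    intro t ht
    rcases Finset.mem_insert.1 ht with h2 | h2
    · omega
    · exact (h t h2).le)
  rw [Finset.card_insert_of_notMem hj, Nat.add_sub_cancel, Finset.erase_insert hj] at h1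
  exact h1

/-! ### chains -/

theorem rel_rp (hoca : OcaStmt) {R : FC} (h3 : O3 R) {k m : ℕ} {b : ℕ → ℕ} {P : Finset ℕ}
    (hP : P ⊆ Finset.range (k + 1)) (hm : m ∈ P) (hmax : ∀ j ∈ P, j ≤ m)
    (hb : pr k b = P) : R.R k b (rp P m (deg k b)) := by
  subst hb
  exact rp_rel hoca h3 hm hmax

/-- all truncations down to `s` are related -/
theorem chain (hoca : OcaStmt) {R : FC} (h3 : O3 R) {k n : ℕ} {a : ℕ → ℕ}
    (hJ : ∀ m, n ≤ m → m ≤ (pr k a).card → JP R m (deg k a)) :
    ∀ t s, s + t = (pr k a).card → n ≤ s + 1 → ∀ b, deg k b = deg k a → pr k b = tr s (pr k a) →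
      R.R k a b := by
  intro t
  induction t with
  | zero =>
    intro s hs _ b hb hb'
    rw [tr_eq_self (by omega)] at hb'
    exact hoca R k a b h3 hb.symm hb'.symm
  | succ t ih =>
    intro s hs hns b hb hb'
    have hc := card_tr' (m := s + 1) (P := pr k a) (by omega)
    have hsub : tr (s + 1) (pr k a) ⊆ Finset.range (k + 1) := tr_sub.trans pr_sub_range
    have hne : (tr (s + 1) (pr k a)).Nonempty := Finset.card_pos.1 (by omega)
    obtain ⟨q, hq, hqq⟩ := exists_max hne
    have hle : (tr (s + 1) (pr k a)).card ≤ deg k a :=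
      (Finset.card_le_card tr_sub).trans card_pr_le
    have hdeg := deg_rp hsub hq hle
    have hpr := pr_rp (d := deg k a) hsub hq hqq
    have h1 := ih (s + 1) (by omega) (by omega) _ hdeg hpr
    have h2 := hJ (s + 1) (by omega) (by omega) k (rp (tr (s + 1) (pr k a)) q (deg k a)) b hdeg hb
      (by rw [hpr]; exact hc) (by rw [hpr, hb', Nat.add_sub_cancel, tr_tr (by omega)])
    exact R.trans h1 h2

/-- `A3` removes the second element of a profile with two elements -/
theorem jp2 (hoca : OcaStmt) {R : FC} (h3 : O3 R) {d : ℕ} (hA : A3 R d) : JP R 2 d := by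
  intro k a b hda hdb hc hb
  obtain ⟨q, hq, hqq⟩ := exists_max (P := pr k a) (Finset.card_pos.1 (by omega))
  have hcd : 2 ≤ d := by
    rw [← hc, ← hda]
    exact card_pr_le
  have hb1 : pr k b = (pr k a).erase q := by
    rw [hb, ← hc, tr_pred hq hqq]
  have hc1 : ((pr k a).erase q).card = 1 := by
    rw [Finset.card_erase_of_mem hq]
    omega
  obtain ⟨p, hp⟩ := Finset.card_eq_one.1 hc1
  have hpm : p ∈ (pr k a).erase q := by
    rw [hp]
    exact Finset.mem_singleton_self p
  have hp1 := (Finset.mem_erase.1 hpm).1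
  have hp2 := (Finset.mem_erase.1 hpm).2
  have hpq : p < q := by
    have := hqq p hp2
    omega
  have hqk : q ≤ k := by
    have := Finset.mem_range.1 (pr_sub_range hq)
    omega
  have hP : pr k a = {p, q} := by
    rw [← Finset.insert_erase hq, hp, Finset.pair_comm]
  have h1 := rel_rp hoca h3 pr_sub_range hq hqq (rfl : pr k a = pr k a)
  have h2 : R.R k b (rp {p} p (deg k b)) := by
    refine rel_rp hoca h3 ?_ (Finset.mem_singleton_self p) ?_ (hb1.trans hp)
    · intro t ht
      rw [Finset.mem_singleton.1 ht]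
      exact pr_sub_range hp2
    · intro j hj
      rw [Finset.mem_singleton.1 hj]
  have h5 := R.push k (tb p q) (bmap_tb hpq.le hqk) hA
  refine R.trans h1 (R.trans (R.ext ?_ ?_ (R.symm h5)) (R.symm h2))
  · intro j _
    rw [psh_tb, hda]
    unfold rp
    rw [hc, hP]
    by_cases hjq : j = q
    · have n1 : ¬ j = p := by omega
      have n2 : j ∈ ({p, q} : Finset ℕ) := by
        rw [hjq, Finset.mem_insert, Finset.mem_singleton]
        exact Or.inr rfl
      simp only [if_neg n1, if_pos hjq, if_pos n2]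
      omega
    · by_cases hjp : j = p
      · have n2 : j ∈ ({p, q} : Finset ℕ) := by
          rw [hjp]
          exact Finset.mem_insert_self _ _
        simp only [if_neg hjq, if_pos hjp, if_pos n2]
      · have n2 : ¬ j ∈ ({p, q} : Finset ℕ) := by
          rw [Finset.mem_insert, Finset.mem_singleton]
          omega
        simp only [if_neg hjq, if_neg hjp, if_neg n2]
  · intro j _
    rw [psh_tb, hdb]
    unfold rp
    rw [Finset.card_singleton]
    by_cases hjp : j = p
    · have n1 : ¬ j = q := by omega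
      have n2 : j ∈ ({p} : Finset ℕ) := by
        rw [Finset.mem_singleton]
        exact hjp
      simp only [if_neg n1, if_pos hjp, if_pos n2]
      omega
    · have n2 : ¬ j ∈ ({p} : Finset ℕ) := by
        rw [Finset.mem_singleton]
        exact hjp
      by_cases hjq : j = q
      · simp only [if_neg hjp, if_pos hjq, if_neg n2]
      · simp only [if_neg hjp, if_neg hjq, if_neg n2]

/-- the map of three blocks -/
def t3 (p q r : ℕ) : ℕ → ℕ := fun t => if t = 0 then p else if t = 1 then q else r

theorem bmap_t3 {k p q r : ℕ} (h : p ≤ q) (h' : q ≤ r) (hr : r ≤ k) : BMap 2 k (t3 p q r) := by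
  refine ⟨?_, ?_⟩
  · intro i j hij _
    unfold t3
    split_ifs <;> omega
  · intro i _
    unfold t3
    split_ifs <;> omega

theorem psh_t3 (p q r u v w : ℕ) (j : ℕ) :
    psh 2 (t3 p q r) (v3 u v w) j =
      (if j = p then u else 0) + (if j = q then v else 0) + (if j = r then w else 0) := by
  unfold psh
  rw [Finset.sum_range_succ, Finset.sum_range_succ, Finset.sum_range_succ, Finset.sum_range_zero,
    Nat.zero_add]
  simp only [t3, v3, if_true, one_ne_zero, if_false, eq_comm (a := j), OfNat.ofNat_ne_zero,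
    OfNat.ofNat_ne_one]

/-- `JJd` gives `JP` for all `m ≥ 3` -/
theorem jpd (hoca : OcaStmt) {R : FC} (h3 : O3 R) (hj : JJd R) {m d : ℕ} (hm : 3 ≤ m) :
    JP R m d := by
  intro k a b hda hdb hc hb
  have hcd : m ≤ d := by
    rw [← hc, ← hda]
    exact card_pr_le
  obtain ⟨r, hr, hrr⟩ := exists_max (P := pr k a) (Finset.card_pos.1 (by omega))
  have hb1 : pr k b = (pr k a).erase r := by
    rw [hb, ← hc, tr_pred hr hrr]
  obtain ⟨q, hq, hqq⟩ := exists_max (P := (pr k a).erase r) (Finset.card_pos.1 (by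
    rw [Finset.card_erase_of_mem hr]
    omega))
  have hq1 := (Finset.mem_erase.1 hq).1
  have hq2 := (Finset.mem_erase.1 hq).2
  obtain ⟨p, hp, _⟩ := exists_max (P := ((pr k a).erase r).erase q) (Finset.card_pos.1 (by
    rw [Finset.card_erase_of_mem hq, Finset.card_erase_of_mem hr]
    omega))
  have hp1 := (Finset.mem_erase.1 hp).1
  have hp2 := (Finset.mem_erase.1 hp).2
  have hp3 := (Finset.mem_erase.1 hp2).2
  have hpq : p < q := by
    have := hqq p hp2
    omega
  have hqr : q < r := by
    have := hrr q hq2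
    omega
  have hrk : r ≤ k := by
    have := Finset.mem_range.1 (pr_sub_range hr)
    omega
  have h1 := rel_rp hoca h3 pr_sub_range hr hrr (rfl : pr k a = pr k a)
  have hsub : (pr k a).erase r ⊆ Finset.range (k + 1) :=
    (Finset.erase_subset _ _).trans pr_sub_range
  have hcr : ((pr k a).erase r).card = m - 1 := by
    rw [Finset.card_erase_of_mem hr, hc]
  have h5 := R.add (fun t => rp (pr k a) r d t - psh 2 (t3 p q r) (v3 1 1 1) t)
    (R.push k (t3 p q r) (bmap_t3 hpq.le hqr.le hrk) hj)
  have hrpr : rp (pr k a) r d r = d - m + 1 := by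
    unfold rp
    rw [if_pos hr, if_pos rfl, hc]
    omega
  have hrp : ∀ t, t ≠ r → rp (pr k a) r d t = if t ∈ pr k a then 1 else 0 := by
    intro t ht
    unfold rp
    rw [if_neg ht, Nat.add_zero]
  have hrm : ∀ t, t = q ∨ t = p → t ∈ pr k a := by
    rintro t (h | h)
    · rw [h]
      exact hq2
    · rw [h]
      exact hp3
  -- the right side
  have hR : ∀ t, psh 2 (t3 p q r) (v3 1 2 0) t +
      (rp (pr k a) r d t - psh 2 (t3 p q r) (v3 1 1 1) t) =
      if t = r then d - m else if t = q then 2 else if t ∈ pr k a then 1 else 0 := by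
    intro t
    rw [psh_t3, psh_t3]
    by_cases htr : t = r
    · have n1 : ¬ r = p := by omega
      have n2 : ¬ r = q := by omega
      rw [htr, hrpr]
      simp only [if_neg n1, if_neg n2, if_true]
      omega
    · rw [hrp t htr]
      by_cases htq : t = q
      · have n1 : ¬ t = p := by omega
        simp only [if_neg htr, if_neg n1, if_pos htq, if_pos (hrm t (Or.inl htq))]
      · by_cases htp : t = p
        · simp only [if_neg htr, if_neg htq, if_pos htp, if_pos (hrm t (Or.inr htp))]
        · simp only [if_neg htr, if_neg htq, if_neg htp]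
          omega
  have hL : ∀ t, psh 2 (t3 p q r) (v3 1 1 1) t +
      (rp (pr k a) r d t - psh 2 (t3 p q r) (v3 1 1 1) t) = rp (pr k a) r d t := by
    intro t
    rw [psh_t3]
    by_cases htr : t = r
    · have n1 : ¬ r = p := by omega
      have n2 : ¬ r = q := by omega
      rw [htr, hrpr]
      simp only [if_neg n1, if_neg n2, if_true]
      omega
    · rw [hrp t htr]
      by_cases htq : t = q
      · have n1 : ¬ t = p := by omega
        simp only [if_neg htr, if_neg n1, if_pos htq, if_pos (hrm t (Or.inl htq))]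
      · by_cases htp : t = p
        · simp only [if_neg htr, if_neg htq, if_pos htp, if_pos (hrm t (Or.inr htp))]
        · simp only [if_neg htr, if_neg htq, if_neg htp]
          omega
  have h6 : R.R k a (fun t => if t = r then d - m else if t = q then 2 else
      if t ∈ pr k a then 1 else 0) := by
    refine R.trans h1 (R.ext ?_ ?_ h5)
    · intro t _
      rw [hda]
      exact hL t
    · intro t _
      exact hR t
  refine R.trans h6 (hoca R k _ b h3 ?_ ?_)
  · rw [hdb]
    have e : (fun t => if t = r then d - m else if t = q then 2 else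
        if t ∈ pr k a then 1 else 0) = fun t => (if t = r then d - m else 0) +
          ((if t = q then 1 else 0) + if t ∈ (pr k a).erase r then 1 else 0) := by
      funext t
      by_cases htr : t = r
      · have n1 : ¬ t = q := by omega
        have n2 : ¬ t ∈ (pr k a).erase r := by
          rw [htr]
          exact Finset.notMem_erase r _
        simp only [if_pos htr, if_neg n1, if_neg n2]
        omega
      · rw [if_neg htr, if_neg htr]
        by_cases htq : t = q
        · rw [if_pos htq, if_pos htq, if_pos (show t ∈ (pr k a).erase r by rw [htq]; exact hq)]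
        · rw [if_neg htq, if_neg htq]
          by_cases ht : t ∈ pr k a
          · rw [if_pos ht, if_pos (Finset.mem_erase.2 ⟨htr, ht⟩)]
          · rw [if_neg ht, if_neg (fun h => ht (Finset.mem_erase.1 h).2)]
    rw [e]
    unfold deg
    rw [Finset.sum_add_distrib, Finset.sum_add_distrib, Finset.sum_ite_eq', Finset.sum_ite_eq',
      if_pos (pr_sub_range hr), if_pos (pr_sub_range hq2), Finset.sum_ite_mem,
      Finset.inter_eq_right.2 hsub, Finset.sum_const, smul_eq_mul, mul_one, hcr]
    omega
  · rw [hb1]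
    have hpr' : ∀ (c : ℕ → ℕ) (t : ℕ), t ∈ pr k c ↔ (t ≤ k ∧ c t ≠ 0) ∧ ∀ i < t, c i ≤ 1 := by
      intro c t
      unfold pr
      rw [Finset.mem_filter, mem_sp']
    ext t
    rw [hpr']
    constructor
    · rintro ⟨⟨h7, h8⟩, h9⟩
      have htq : t ≤ q := by
        by_contra hlt
        have h10 := h9 q (by omega)
        rw [if_neg (show ¬ q = r by omega), if_pos rfl] at h10
        omega
      rw [Finset.mem_erase]
      refine ⟨by omega, ?_⟩
      by_cases htq' : t = q
      · rw [htq']
        exact hq2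
      · by_contra hn
        rw [if_neg (show ¬ t = r by omega), if_neg htq', if_neg hn] at h8
        exact h8 rfl
    · intro ht
      have h7 := hqq t ht
      have h8 := Finset.mem_erase.1 ht
      have h9 := Finset.mem_range.1 (pr_sub_range h8.2)
      refine ⟨⟨by omega, ?_⟩, ?_⟩
      · rw [if_neg h8.1]
        by_cases htq' : t = q
        · rw [if_pos htq']
          omega
        · rw [if_neg htq', if_pos h8.2]
          omega
      · intro i hi
        rw [if_neg (show ¬ i = r by omega), if_neg (show ¬ i = q by omega)]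
        by_cases h : i ∈ pr k a
        · rw [if_pos h]
        · rw [if_neg h]
          omega

theorem deg_psh {k k' : ℕ} {f : ℕ → ℕ} (hf : BMap k k' f) (a : ℕ → ℕ) :
    deg k' (psh k f a) = deg k a := by
  unfold deg psh
  rw [Finset.sum_comm]
  apply Finset.sum_congr rfl
  intro i hi
  rw [Finset.mem_range] at hi
  have := hf.le i (by omega)
  rw [Finset.sum_ite_eq, if_pos (Finset.mem_range.2 (by omega))]

theorem tr_zero {P : Finset ℕ} : tr 0 P = ∅ := by
  unfold tr
  apply Finset.filter_false_of_mem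
  intro j _
  omega

theorem tr_one {P : Finset ℕ} {i : ℕ} (hi : i ∈ P) (h : ∀ j ∈ P, i ≤ j) : tr 1 P = {i} := by
  ext j
  rw [mem_tr, Finset.mem_singleton]
  constructor
  · rintro ⟨h1, h2⟩
    by_contra hne
    have h3 := h j h1
    have h4 : i ∈ P.filter (fun t => t < j) := Finset.mem_filter.2 ⟨hi, by omega⟩
    have h5 := Finset.card_pos.2 ⟨i, h4⟩
    omega
  · intro hj
    subst hj
    refine ⟨hi, ?_⟩
    have h1 : P.filter (fun t => t < j) = ∅ := by
      apply Finset.filter_false_of_mem
      intro t ht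
      have := h t ht
      omega
    rw [h1, Finset.card_empty]
    omega

theorem min_of {P : Finset ℕ} {i : ℕ} (hi : i ∈ P) (h : ∀ j ∈ P, i ≤ j) :
    P.min = (i : WithTop ℕ) := by
  apply le_antisymm
  · exact Finset.min_le hi
  · apply Finset.le_min
    intro j hj
    exact WithTop.coe_le_coe.2 (h j hj)

theorem le_card_of {P P' : Finset ℕ} {c : ℕ} (h : tr c P = tr c P') (hne : P ≠ P') :
    c ≤ P.card := by
  by_contra hlt
  have h1 := tr_eq_self (P := P) (m := c) (by omega)
  by_cases h2 : c ≤ P'.card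
  · have h3 := card_tr' h2
    rw [← h, h1] at h3
    omega
  · have h3 := tr_eq_self (P := P') (m := c) (by omega)
    rw [h1, h3] at h
    exact hne h

/-- the case `ZR` -/
theorem caseZ (hoca : OcaStmt) (hocr : OcrStmt) {ρ : FIC} (h3 : O3 (FC.ofFIC ρ)) {k : ℕ}
    {a a' b : ℕ → ℕ} {i : ℕ} (hd : 2 ≤ deg k a) (hdd : deg k a = deg k a') (h1 : L1 ρ k a a')
    (hpr : pr k a ≠ pr k a') (hi : i ≤ k) (hz : ZR k a b i) :
    ∃ c, L1 ρ k a c ∧ deg k c = deg k a ∧ (c i ≠ 1 ∨ ∃ j ≤ k, i < j ∧ c j ≠ 0) := by
  obtain ⟨z1, z2, z3, z4⟩ := hz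
  obtain ⟨m, hm, hmm⟩ := exists_max (pr_nonempty (k := k) (a := a) (by omega))
  obtain ⟨m', hm', hmm'⟩ := exists_max (pr_nonempty (k := k) (a := a') (by omega))
  have hra := rp_rel hoca h3 hm hmm
  have hra' := rp_rel hoca h3 hm' hmm'
  have hdr : deg k (rp (pr k a) m (deg k a)) = deg k a := deg_rp pr_sub_range hm card_pr_le
  have hdr' : deg k (rp (pr k a') m' (deg k a')) = deg k a' := deg_rp pr_sub_range hm' card_pr_le
  have hmk := Finset.mem_range.1 (pr_sub_range hm)
  have hmk' := Finset.mem_range.1 (pr_sub_range hm')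
  have hmi : m ≤ i := by
    by_contra hlt
    have h4 := (mem_sp'.1 (pr_sub_sp hm)).2
    exact h4 (z1 m (by omega) (by omega)).1
  by_cases hmi1 : m = i
  swap
  · refine ⟨_, hra, hdr, Or.inl ?_⟩
    have n1 : ¬ i ∈ pr k a := fun h => by
      have := hmm i h
      omega
    have n2 : ¬ i = m := by omega
    unfold rp
    rw [if_neg n1, if_neg n2]
    omega
  have hmem : ∀ {P : Finset ℕ} {t : ℕ} (d : ℕ), t ∈ P → rp P t d t = d - P.card + 1 := by
    intro P t d ht
    unfold rp
    rw [if_pos ht, if_pos rfl]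
    omega
  have hcle : (pr k a).card ≤ deg k a := card_pr_le
  by_cases hfull : (pr k a).card = deg k a
  swap
  · refine ⟨_, hra, hdr, Or.inl ?_⟩
    rw [← hmi1, hmem _ hm]
    omega
  by_cases hmi' : m' = i
  swap
  · refine ⟨_, rr_trans h1 hra', by rw [hdr', hdd], ?_⟩
    rcases Nat.lt_or_gt_of_ne hmi' with h | h
    · left
      have n1 : ¬ i ∈ pr k a' := fun h' => by
        have := hmm' i h'
        omega
      have n2 : ¬ i = m' := by omega
      unfold rp
      rw [if_neg n1, if_neg n2]
      omega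
    · right
      refine ⟨m', by omega, h, ?_⟩
      rw [hmem _ hm']
      omega
  subst hmi1
  subst hmi'
  obtain ⟨C1, C2, _, C4, _⟩ := hocr (FC.ofFIC ρ) k a a' h3 hd hdd h1 hpr
  by_cases hcard : 3 ≤ (pr k a).card
  · have hJ := C1 (pr k a).card hcard (tr_ne (le_refl _) hpr hm hmm') (Or.inl (le_refl _))
    obtain ⟨q, hq, hqq⟩ := exists_max (tr_nonempty (P := pr k a) (m := (pr k a).card - 1)
      ⟨_, hm⟩ (by omega))
    have hsub : tr ((pr k a).card - 1) (pr k a) ⊆ Finset.range (k + 1) :=
      tr_sub.trans pr_sub_range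
    have hcd : (tr ((pr k a).card - 1) (pr k a)).card ≤ deg k a :=
      (Finset.card_le_card tr_sub).trans card_pr_le
    have h5 := hJ k a (rp (tr ((pr k a).card - 1) (pr k a)) q (deg k a)) rfl
      (deg_rp hsub hq hcd) rfl (pr_rp hsub hq hqq)
    refine ⟨_, h5, deg_rp hsub hq hcd, Or.inl ?_⟩
    have n1 := tr_top hm hmm
    have n2 : ¬ m' = q := by
      intro h6
      rw [← h6] at hq
      exact n1 hq
    unfold rp
    rw [if_neg n1, if_neg n2]
    omega
  have hc2 : (pr k a).card = 2 := by omega
  have hd2 : deg k a = 2 := by omega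
  have hc3 : ((pr k a).erase m').card = 1 := by
    rw [Finset.card_erase_of_mem hm]
    omega
  obtain ⟨p, hp⟩ := Finset.card_eq_one.1 hc3
  have hp1 : p ∈ (pr k a).erase m' := by
    rw [hp]
    exact Finset.mem_singleton_self p
  have hp2 := Finset.mem_erase.1 hp1
  have hp3 := hmm p hp2.2
  have hpm : p < m' := by
    have := hp2.1
    omega
  have hP : pr k a = {p, m'} := by
    rw [← Finset.insert_erase hm, hp, Finset.pair_comm]
  have hmin : (pr k a).min ≠ (pr k a').min := by
    intro he
    have h4 : (pr k a).min = (p : WithTop ℕ) := by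
      apply min_of hp2.2
      intro j hj
      rw [hP, Finset.mem_insert, Finset.mem_singleton] at hj
      omega
    rw [h4] at he
    have h5 : p ∈ pr k a' := Finset.mem_of_min he.symm
    have h6 : pr k a ⊆ pr k a' := by
      rw [hP]
      intro j hj
      rw [Finset.mem_insert, Finset.mem_singleton] at hj
      rcases hj with h | h
      · rw [h]
        exact h5
      · rw [h]
        exact hm'
    have h7 : (pr k a').card ≤ deg k a' := card_pr_le
    exact hpr (Finset.eq_of_subset_of_card_le h6 (by omega))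
  have hB := C4 hmin (fun h => by omega)
  rw [hd2] at hB
  have h5 := (FC.ofFIC ρ).push k (tb p m') (bmap_tb hpm.le hi) hB
  have h6 : L1 ρ k a (psh 1 (tb p m') (v2 0 2)) := by
    refine rr_trans hra ?_
    refine (FC.ofFIC ρ).ext ?_ (fun _ _ => rfl) ((FC.ofFIC ρ).symm h5)
    intro j _
    rw [psh_tb, hd2]
    unfold rp
    rw [hc2, hP]
    by_cases hjq : j = m'
    · have n1 : ¬ j = p := by omega
      have n2 : j ∈ ({p, m'} : Finset ℕ) := by
        rw [hjq, Finset.mem_insert, Finset.mem_singleton]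
        exact Or.inr rfl
      simp only [if_neg n1, if_pos hjq, if_pos n2]
    · by_cases hjp : j = p
      · have n2 : j ∈ ({p, m'} : Finset ℕ) := by
          rw [hjp]
          exact Finset.mem_insert_self _ _
        simp only [if_neg hjq, if_pos hjp, if_pos n2]
      · have n2 : ¬ j ∈ ({p, m'} : Finset ℕ) := by
          rw [Finset.mem_insert, Finset.mem_singleton]
          omega
        simp only [if_neg hjq, if_neg hjp, if_neg n2]
  refine ⟨_, h6, ?_, Or.inl ?_⟩
  · rw [deg_psh (bmap_tb hpm.le hi), deg_v2, hd2]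
  · rw [psh_tb]
    simp only [if_true]
    split_ifs <;> omega

/-- the case `FR` -/
theorem caseF (hoca : OcaStmt) (hocr : OcrStmt) (hfcc : FccStmt) {β ρ : FIC} (hle : β ≤ ρ)
    (hcl : ClC1 ρ) (h3β : O3 (FC.ofFIC β)) (hcla : ClauseC3 β) (h3 : O3 (FC.ofFIC ρ)) {k : ℕ}
    {a a' b : ℕ → ℕ} {i : ℕ} (hd : 2 ≤ deg k a) (hdd : deg k a = deg k a') (h1 : L1 ρ k a a')
    (hL : ¬ L1 β k a a') (hpr : pr k a ≠ pr k a') (hb : 2 ≤ deg k b) (hi : i ≤ k)
    (hf : FR k a b i) :
    ∃ c, L1 ρ k a c ∧ deg k c = deg k a ∧ (¬ FR k c b i ∨ Bt ρ k c b i) := by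
  obtain ⟨f1, f2, f3, f4, f5⟩ := hf
  obtain ⟨m', hm', hmm'⟩ := exists_max (pr_nonempty (k := k) (a := a') (by omega))
  have hra' := rp_rel hoca h3 hm' hmm'
  have hdr' : deg k (rp (pr k a') m' (deg k a')) = deg k a' := deg_rp pr_sub_range hm' card_pr_le
  by_cases hi' : i ∈ pr k a'
  swap
  · refine ⟨_, rr_trans h1 hra', by rw [hdr', hdd], Or.inl ?_⟩
    intro h
    have h4 := h.2.2.1
    have n2 : ¬ i = m' := fun h => hi' (by rw [h]; exact hm')
    unfold rp at h4
    rw [if_neg hi', if_neg n2] at h4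
    omega
  by_cases hlt : ∃ j ∈ pr k a', j < i
  · obtain ⟨j, hj, hji⟩ := hlt
    refine ⟨_, rr_trans h1 hra', by rw [hdr', hdd], Or.inl ?_⟩
    intro h
    have h4 := (h.1 j hji).1
    unfold rp at h4
    rw [if_pos hj] at h4
    omega
  push Not at hlt
  have hip : i ∈ pr k a := by
    unfold pr
    rw [Finset.mem_filter, mem_sp']
    refine ⟨⟨hi, by omega⟩, ?_⟩
    intro j hj
    rw [(f1 j hj).1]
    omega
  have hall : ∀ j ∈ pr k a, i ≤ j := by
    intro j hj
    by_contra hn
    exact (mem_sp'.1 (pr_sub_sp hj)).2 (f1 j (by omega)).1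
  have hex : ∃ m, tr m (pr k a) ≠ tr m (pr k a') :=
    ⟨max (pr k a).card (pr k a').card, by
      rw [tr_eq_self (le_max_left _ _), tr_eq_self (le_max_right _ _)]
      exact hpr⟩
  obtain ⟨n, hn, hnmin⟩ : ∃ n, tr n (pr k a) ≠ tr n (pr k a') ∧
      ∀ m < n, tr m (pr k a) = tr m (pr k a') := by
    classical
    refine ⟨Nat.find hex, Nat.find_spec hex, ?_⟩
    intro m hm
    by_contra h
    exact Nat.find_min hex hm h
  have hn2 : 2 ≤ n := by
    by_contra hlt2
    apply hn
    have h4 : n = 0 ∨ n = 1 := by omega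
    rcases h4 with h4 | h4
    · rw [h4, tr_zero, tr_zero]
    · rw [h4, tr_one hip hall, tr_one hi' hlt]
  obtain ⟨c, rfl⟩ : ∃ c, n = c + 1 := ⟨n - 1, by omega⟩
  have hcX := hnmin c (by omega)
  have hge : ∀ m, c + 1 ≤ m → tr m (pr k a) ≠ tr m (pr k a') := by
    intro m hm h
    apply hn
    rw [← tr_tr hm, h, tr_tr hm]
  have hc1 : c ≤ (pr k a).card := le_card_of hcX hpr
  have hc2 : c ≤ (pr k a').card := le_card_of hcX.symm (fun h => hpr h.symm)
  have hN : c + 1 ≤ (pr k a).card ∨ c + 1 ≤ (pr k a').card := by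
    by_contra hno
    apply hpr
    have h4 := hcX
    rw [tr_eq_self (by omega), tr_eq_self (by omega)] at h4
    exact h4
  have hle1 : (pr k a).card ≤ deg k a := card_pr_le
  have hle2 : (pr k a').card ≤ deg k a' := card_pr_le
  obtain ⟨C1, C2, _, _, _⟩ := hocr (FC.ofFIC ρ) k a a' h3 hd hdd h1 hpr
  have hJ : ∀ m, c + 1 ≤ m → (m ≤ (pr k a).card ∨ m ≤ (pr k a').card) →
      JP (FC.ofFIC ρ) m (deg k a) := by
    intro m hm hm2
    by_cases h4 : 3 ≤ m
    · exact C1 m h4 (hge m hm) hm2
    · have h5 : m = 2 := by omega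
      subst h5
      apply jp2 hoca h3
      exact C2 (by rw [min_of hip hall, min_of hi' hlt]) (hge 2 hm)
  -- the common initial segment
  have hXc : (tr c (pr k a)).card = c := card_tr' hc1
  have hXs : tr c (pr k a) ⊆ Finset.range (k + 1) := tr_sub.trans pr_sub_range
  obtain ⟨q, hq, hqq⟩ := exists_max (P := tr c (pr k a)) (Finset.card_pos.1 (by omega))
  have hiX : i ∈ tr c (pr k a) := by
    have h4 : i ∈ tr 1 (tr c (pr k a)) := by
      rw [tr_tr (by omega), tr_one hip hall]
      exact Finset.mem_singleton_self i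
    exact tr_sub h4
  have hqk := Finset.mem_range.1 (hXs hq)
  have hiq : i ≤ q := hqq i hiX
  have hdX : deg k (rp (tr c (pr k a)) q (deg k a)) = deg k a := deg_rp hXs hq (by omega)
  have hpX : pr k (rp (tr c (pr k a)) q (deg k a)) = tr c (pr k a) := pr_rp hXs hq hqq
  have haX : L1 ρ k a (rp (tr c (pr k a)) q (deg k a)) :=
    chain hoca h3 (n := c + 1) (fun m hm hm2 => hJ m hm (Or.inl hm2)) ((pr k a).card - c) c
      (by omega) (by omega) _ hdX hpX
  have hv1 : ∀ t ∈ tr c (pr k a), 1 ≤ rp (tr c (pr k a)) q (deg k a) t := by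
    intro t ht
    unfold rp
    rw [if_pos ht]
    omega
  have hv2 : 2 ≤ rp (tr c (pr k a)) q (deg k a) q := by
    unfold rp
    rw [if_pos hq, if_pos rfl, hXc]
    omega
  by_cases hQ1 : ∃ j ∈ tr c (pr k a), j ≠ i ∧ b j ≠ 0
  · obtain ⟨j, hj, hji, hbj⟩ := hQ1
    refine ⟨_, haX, hdX, Or.inl ?_⟩
    intro h
    have h4 := hv1 j hj
    have h5 := Finset.mem_range.1 (hXs hj)
    rcases h.2.1 j (by omega) hji with h6 | h6
    · omega
    · exact hbj h6
  push Not at hQ1
  by_cases hQ2 : ∃ j ≤ k, q < j ∧ b j ≠ 0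
  · obtain ⟨j, hjk, hjq, hbj⟩ := hQ2
    have hlt2 : ∀ t ∈ tr c (pr k a), t < j := fun t ht => by
      have := hqq t ht
      omega
    have hjX : ¬ j ∈ tr c (pr k a) := fun h => lt_irrefl j (hlt2 j h)
    have hYs : insert j (tr c (pr k a)) ⊆ Finset.range (k + 1) := by
      intro t ht
      rcases Finset.mem_insert.1 ht with h | h
      · rw [h, Finset.mem_range]
        omega
      · exact hXs h
    have hYc : (insert j (tr c (pr k a))).card = c + 1 := by
      rw [Finset.card_insert_of_notMem hjX, hXc]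
    have hYj : j ∈ insert j (tr c (pr k a)) := Finset.mem_insert_self _ _
    have hYm : ∀ t ∈ insert j (tr c (pr k a)), t ≤ j := by
      intro t ht
      rcases Finset.mem_insert.1 ht with h | h
      · omega
      · exact (hlt2 t h).le
    have hdY : deg k (rp (insert j (tr c (pr k a))) j (deg k a)) = deg k a :=
      deg_rp hYs hYj (by omega)
    have hpY : pr k (rp (insert j (tr c (pr k a))) j (deg k a)) = insert j (tr c (pr k a)) :=
      pr_rp hYs hYj hYm
    have htY := tr_insert hlt2
    rw [hXc] at htY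
    have h4 := hJ (c + 1) (le_refl _) hN k (rp (insert j (tr c (pr k a))) j (deg k a))
      (rp (tr c (pr k a)) q (deg k a)) hdY hdX (by rw [hpY, hYc])
      (by rw [hpX, hpY, Nat.add_sub_cancel, htY])
    refine ⟨_, rr_trans haX ((FC.ofFIC ρ).symm h4), hdY, Or.inl ?_⟩
    intro h
    rcases h.2.1 j hjk (by omega) with h6 | h6
    · unfold rp at h6
      rw [if_pos hYj] at h6
      omega
    · exact hbj h6
  push Not at hQ2
  by_cases hqi : q = i
  · have h4 : deg k b = b i := by
      apply deg_single hi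
      intro j hj hji
      rcases Nat.lt_or_gt_of_ne hji with h | h
      · exact (f1 j h).2
      · exact hQ2 j hj (by omega)
    refine ⟨_, haX, hdX, Or.inl ?_⟩
    intro h
    rcases h.2.2.2.2 with h5 | h5
    · rw [← hqi] at h5
      omega
    · omega
  have hc3 : 2 ≤ c := by
    have h4 : ({i, q} : Finset ℕ) ⊆ tr c (pr k a) := by
      intro t ht
      rw [Finset.mem_insert, Finset.mem_singleton] at ht
      rcases ht with h | h
      · rw [h]
        exact hiX
      · rw [h]
        exact hq
    have h5 := Finset.card_le_card h4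
    rw [Finset.card_pair (fun h => hqi h.symm), hXc] at h5
    exact h5
  rcases hcla with hjj | hv
  · exfalso
    apply hL
    have h4 : L1 β k a (rp (tr c (pr k a)) q (deg k a)) :=
      chain hoca h3β (n := c + 1) (fun m hm _ => jpd hoca h3β hjj (by omega))
        ((pr k a).card - c) c (by omega) (by omega) _ hdX hpX
    have h5 : L1 β k a' (rp (tr c (pr k a)) q (deg k a)) :=
      chain hoca h3β (n := c + 1) (fun m hm _ => jpd hoca h3β hjj (by omega))
        ((pr k a').card - c) c (by omega) (by omega) _ (hdX.trans hdd) (hpX.trans hcX)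
    exact rr_trans h4 ((FC.ofFIC β).symm h5)
  obtain ⟨j, hij, hjq, hjb⟩ : ∃ j, i ≤ j ∧ j < q ∧
      ((j = i ∧ 2 ≤ b i) ∨ (i < j ∧ b j ≠ 0)) := by
    by_cases h : ∃ j ≤ k, i < j ∧ b j ≠ 0
    · obtain ⟨j, hjk, hij, hbj⟩ := h
      refine ⟨j, hij.le, ?_, Or.inr ⟨hij, hbj⟩⟩
      by_contra hn2
      rcases Nat.lt_or_ge q j with h5 | h5
      · exact hbj (hQ2 j hjk h5)
      · have h6 : j = q := by omega
        rw [h6] at hbj
        exact hbj (hQ1 q hq hqi)
    · push Not at h
      have h4 : deg k b = b i := by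
        apply deg_single hi
        intro j hj hji
        rcases Nat.lt_or_gt_of_ne hji with h | h'
        · exact (f1 j h).2
        · exact h j hj h'
      exact ⟨i, le_refl i, by omega, Or.inl ⟨rfl, by omega⟩⟩
  obtain ⟨_, _, F3, F4, _, _⟩ := hfcc ρ hcl
  have hbm : BMap 2 k (t3 i j q) := bmap_t3 hij hjq.le (by omega)
  have hd3 : deg 2 (v3 1 0 2) = 3 := rfl
  have hd4 : deg 2 (v3 1 1 0) = 2 := rfl
  have h4 := F4 2 k (t3 i j q) (v3 1 0 2) (v3 1 1 0) 0 hbm (by rw [hd3]; omega)
    (by rw [hd4]) (by omega) (by unfold v3; rw [if_pos rfl]) (by unfold v3; rw [if_pos rfl])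
    (fun t ht => by omega) (bt_mono hle hv)
  have e0 : t3 i j q 0 = i := by
    unfold t3
    rw [if_pos rfl]
  rw [e0] at h4
  have hA := psh_t3 i j q 1 0 2
  have hB := psh_t3 i j q 1 1 0
  have h5 := F3 k (psh 2 (t3 i j q) (v3 1 0 2)) (psh 2 (t3 i j q) (v3 1 1 0))
    (fun t => rp (tr c (pr k a)) q (deg k a) t - psh 2 (t3 i j q) (v3 1 0 2) t)
    (fun t => b t - psh 2 (t3 i j q) (v3 1 1 0) t) i
    (by rw [deg_psh hbm, hd3]; omega) (by rw [deg_psh hbm, hd4]) hi
    (by rw [hA, if_pos rfl]; omega) (by rw [hB, if_pos rfl]; omega) h4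
  have ea : (fun t => psh 2 (t3 i j q) (v3 1 0 2) t +
      (rp (tr c (pr k a)) q (deg k a) t - psh 2 (t3 i j q) (v3 1 0 2) t)) =
      rp (tr c (pr k a)) q (deg k a) := by
    funext t
    rw [hA]
    have h6 := hv1 i hiX
    by_cases hti : t = i
    · have n1 : ¬ t = q := by omega
      rw [← hti] at h6
      simp only [if_pos hti, if_neg n1]
      split_ifs <;> omega
    · by_cases htq : t = q
      · have n1 : ¬ t = j := by omega
        have hv3 : 2 ≤ rp (tr c (pr k a)) q (deg k a) t := by
          rw [htq]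
          exact hv2
        simp only [if_neg hti, if_pos htq, if_neg n1]
        omega
      · simp only [if_neg hti, if_neg htq]
        split_ifs <;> omega
  have eb : (fun t => psh 2 (t3 i j q) (v3 1 1 0) t +
      (b t - psh 2 (t3 i j q) (v3 1 1 0) t)) = b := by
    funext t
    rw [hB]
    by_cases hti : t = i
    · by_cases htj : t = j
      · have h7 : 2 ≤ b i := by
          rcases hjb with h | h
          · exact h.2
          · omega
        rw [← hti] at h7
        simp only [if_pos hti, if_pos htj]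
        split_ifs <;> omega
      · rw [← hti] at f4
        simp only [if_pos hti, if_neg htj]
        split_ifs <;> omega
    · by_cases htj : t = j
      · have h7 : b j ≠ 0 := by
          rcases hjb with h | h
          · omega
          · exact h.2
        rw [← htj] at h7
        simp only [if_neg hti, if_pos htj]
        split_ifs <;> omega
      · simp only [if_neg hti, if_neg htj]
        split_ifs <;> omega
  rw [ea, eb] at h5
  exact ⟨_, haX, hdX, Or.inr h5⟩

end TccRow

/-- **TCC** -/
theorem tcc (hoca : OcaStmt) (hocr : OcrStmt) (hfcc : FccStmt) : TccStmt := by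
  intro β ρ hle hcl h3 hcla k a a' hd hdd h1
  by_cases hL : L1 β k a a'
  · exact Or.inl hL
  right
  intro b e hb i hi
  have hpr : pr k a ≠ pr k a' := fun hpr => hL (hoca (FC.ofFIC β) k a a' h3 hdd hpr)
  have h3ρ : O3 (FC.ofFIC ρ) := rr_mono hle h3
  obtain ⟨F0, F2, _, _, _, _⟩ := hfcc ρ hcl
  suffices h : Bt ρ k a b i from h e
  by_cases hz : ZR k a b i
  · obtain ⟨c, hac, hdc, hc⟩ := TccRow.caseZ hoca hocr h3ρ hd hdd h1 hpr hi hz
    refine F2 k a c b i hac (F0 k c b i (by omega) hb hi ?_ ?_)
    · intro hf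
      have h4 : deg k b = b i := by
        apply TccRow.deg_single hi
        intro j hj hji
        rcases Nat.lt_or_gt_of_ne hji with h | h
        · exact (hf.1 j h).2
        · exact (hz.1 j hj h).2
      have := hz.2.2.2
      omega
    · intro hz2
      rcases hc with h | ⟨j, hj, hij, h⟩
      · exact h hz2.2.2.1
      · exact h (hz2.1 j hj hij).1
  by_cases hf : FR k a b i
  · obtain ⟨c, hac, hdc, hc⟩ := TccRow.caseF hoca hocr hfcc hle hcl h3 hcla h3ρ hd hdd h1 hL
      hpr hb hi hf
    rcases hc with h | h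
    · refine F2 k a c b i hac (F0 k c b i (by omega) hb hi h ?_)
      intro hz2
      have h4 : deg k b = b i := by
        apply TccRow.deg_single hi
        intro j hj hji
        rcases Nat.lt_or_gt_of_ne hji with h | h
        · exact (hf.1 j h).2
        · exact (hz2.1 j hj h).2
      have := hz2.2.2.2
      omega
    · exact F2 k a c b i hac h
  · exact F0 k a b i hd hb hi hf hz

end Pool.Agent.MVO.H94
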