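import Mathlib
import Pool.Agent.MVO.StmtsE

set_option autoImplicit false

/-! Row DET of the squad MVO: every congruence above one of class c3 is 2-determined. -/

namespace Pool.Agent.MVO.H94

open Pool.Agent.Helper14_MV Pool.Agent.Helper2_MV Pool.Agent.MVO

theorem clC3_mono {β ω : FIC} (h : β ≤ ω) (hc : ClC3 β) : ClC3 ω := by
  have hr : ∀ {l l' : List ℕ}, RR β l l' → RR ω l l' := fun hl => h _ _ hl
  refine ⟨⟨hr hc.cc.1, ?_, ?_⟩, ?_, ?_, ?_⟩
  · intro p q c r x y h1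
    exact hr (hc.cc.2.1 p q c r x y h1)
  · intro p q c r x y h1
    exact hr (hc.cc.2.2 p q c r x y h1)
  · intro p c q x y h1 h2 h3 h4 h5 h6
    exact hr (hc.l3.1 p c q x y h1 h2 h3 h4 h5 h6)
  · intro p c q x y h1 h2 h3 h4 h5 h6
    exact hr (hc.l3.2.1 p c q x y h1 h2 h3 h4 h5 h6)
  · intro p c q x y h1 h2 h3 h4 h5 h6 h7
    exact hr (hc.l3.2.2 p c q x y h1 h2 h3 h4 h5 h6 h7)

/-- **DET** -/
theorem det (gac : GacStmt) (rgc : RgcStmt) (swc : SwcStmt) (mrc : MrcStmt) (mrd : MrdStmt)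
    (dt3 : Dt3Stmt) (dtg : DtgStmt) : DetStmt := by
  intro β hβ ω hle _
  have hω := clC3_mono hle hβ
  have key : DetAt ω := by
    by_cases h1 : MVD.IA ω
    · have hc : ClC1 ω := ⟨hω.cc, h1⟩
      exact dtg ω (gac ω hc) (rgc ω hc) (swc ω hc)
    by_cases h2 : MVD.IAd ω
    · have hm := mrc ω
      have hc : ClC1 (MVD.mir ω) := ⟨hm.1.2 hω.cc, hm.2.1.2 h2⟩
      exact mrd.2.1 ω (dtg _ (gac _ hc) (rgc _ hc) (swc _ hc))
    · exact dt3 ω hω h1 h2
  exact key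

end Pool.Agent.MVO.H94
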