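import Mathlib
import Pool.Agent.MVO.StmtsV
import Pool.Agent.Helper97_MVO.EXC

set_option autoImplicit false

/-! Row EXV of the squad MVO: the free exchanges in gathered words (class Va). -/

namespace Pool.Agent.MVO.H94

open Pool.Agent.Helper14_MV Pool.Agent.Helper2_MV Pool.Agent.MVO

/-- **EXV** -/
theorem exv (pwv : PwvStmt) : ExvStmt := by
  intro β hcl k X n D hG i hi A B x y hD hV
  have hnd : ∀ j, (D j).Nodup := fun j => (hG.perm j).nodup_iff.2 hG.nodup
  have hmem : ∀ j z, z ∈ D j ↔ z ∈ X := fun j z => (hG.perm j).mem_iff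
  have hxD : x ∈ D i := by rw [hD]; simp
  have hyD : y ∈ D i := by rw [hD]; simp
  have hxX : x ∈ X := (hmem i x).1 hxD
  have hyX : y ∈ X := (hmem i y).1 hyD
  have hxy : x ≠ y := by
    intro h
    have h1 := hnd i
    rw [hD, h, List.nodup_append'] at h1
    have h2 := h1.2.1
    rw [List.nodup_cons] at h2
    exact h2.1 (List.mem_cons_self ..)
  set blk : ℕ → List ℕ := fun j => gb (n j) (D j) with hblk
  have e0 : gw k n D = asm k blk := rfl
  have e1 : gw k n (Function.update D i (A ++ y :: x :: B)) =
      asm k (Function.update blk i (gb (n i) (A ++ y :: x :: B))) := by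
    unfold gw
    apply asm_congr
    intro j _
    by_cases hj : j = i
    · subst hj
      rw [Function.update_self, Function.update_self]
    · rw [Function.update_of_ne hj, Function.update_of_ne hj]
  set p : List ℕ := pre blk i ++ gb (n i) A with hp
  set q : List ℕ := gb (n i) B ++ suf blk i (k - i) with hq
  have hw : gw k n D = p ++ List.replicate (n i x) x ++ List.replicate (n i y) y ++ q := by
    rw [e0, asm_split hi]
    have e2 : blk i = gb (n i) (A ++ x :: y :: B) := by rw [hblk, ← hD]
    rw [e2, H97.gb_append, H97.gb_cons, H97.gb_cons, hp, hq]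
    simp only [List.append_assoc]
  have hw' : gw k n (Function.update D i (A ++ y :: x :: B)) =
      p ++ List.replicate (n i y) y ++ List.replicate (n i x) x ++ q := by
    rw [e1, asm_update hi, H97.gb_append, H97.gb_cons, H97.gb_cons, hp, hq]
    simp only [List.append_assoc]
  rw [hw']
  have hcnt : ∀ z ∈ X, 2 ≤ (gw k n D).count z := by
    intro z hz
    rw [e0, count_asm (hG.ns z hz)]
    have h1 : deg k (fun j => (blk j).count z) = deg k (fun j => n j z) := by
      unfold deg
      apply Finset.sum_congr rfl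
      intro j _
      exact H97.count_gb (hnd j) ((hmem j z).2 hz)
    rw [h1]
    exact hG.mult z hz
  by_cases ha : n i x = 0
  · rw [hw, ha]
    simp only [List.replicate_zero, List.append_nil]
    exact RR.refl _
  by_cases hb : n i y = 0
  · rw [hw, hb]
    simp only [List.replicate_zero, List.append_nil]
    exact RR.refl _
  apply pwv β hcl p q x y (n i x) (n i y) (gw k n D) hxy hw
  by_cases hco : ∃ j, j ≤ k ∧ j ≠ i ∧ 1 ≤ n j x ∧ 1 ≤ n j y
  · right
    obtain ⟨j, hjk, hji, h1, h2⟩ := hco
    have hm : ∀ z ∈ D j, 2 ≤ (gw k n D).count z := fun z hz => hcnt z ((hmem j z).1 hz)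
    rcases Nat.lt_or_gt_of_ne hji with h5 | h5
    · obtain ⟨R, hR⟩ := pre_split (B := blk) h5
      have h6 : Cob (gw k n D) p x y ∨ Cob (gw k n D) p y x := by
        apply H97.exc_cob (L1 := pre blk j) (L2 := R ++ gb (n i) A) hxy ((hmem j x).2 hxX)
          ((hmem j y).2 hyX) h1 h2 hm
        rw [hp, hR]
        simp only [List.append_assoc, hblk]
      rcases h6 with h6 | h6
      · exact Or.inl h6
      · exact Or.inr (Or.inl h6)
    · obtain ⟨R, R', hR⟩ := suf_split (B := blk) (r := k - i) h5 (by omega)
      have h6 : Cob (gw k n D) q x y ∨ Cob (gw k n D) q y x := by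
        apply H97.exc_cob (L1 := gb (n i) B ++ R) (L2 := R') hxy ((hmem j x).2 hxX)
          ((hmem j y).2 hyX) h1 h2 hm
        rw [hq, hR]
        simp only [List.append_assoc, hblk]
      exact Or.inr (Or.inr h6)
  left
  by_contra hno
  apply hV
  refine ⟨?_, ?_, ?_, ?_⟩
  · intro j hj hji
    show n j x = 0 ∨ n j y = 0
    by_contra h
    exact hco ⟨j, hj, hji, by omega, by omega⟩
  · show 1 ≤ n i x
    omega
  · show 1 ≤ n i y
    omega
  · show n i x = 1 ∨ n i y = 1
    omega

end Pool.Agent.MVO.H94
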