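import Mathlib
import Pool.Agent.MVO.StmtsM

set_option autoImplicit false

/-! Row MRT of the squad MVO: one and two letter identities of the mirror image. -/

namespace Pool.Agent.MVO.H94

open Pool.Agent.Helper14_MV Pool.Agent.Helper2_MV Pool.Agent.MVO

namespace MrtRow

theorem rr_mir (β : FIC) (l l' : List ℕ) : RR (MVD.mir β) l l' ↔ RR β l.reverse l'.reverse :=
  Iff.rfl

theorem mir_mir (β : FIC) : MVD.mir (MVD.mir β) = β := by
  apply FIC.ext'
  intro a b
  change β.r a.reverse.reverse b.reverse.reverse ↔ β.r a b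
  rw [FreeMonoid.reverse_reverse, FreeMonoid.reverse_reverse]

theorem ok_mw (k : ℕ) (a : ℕ → ℕ) : BlkOk k (fun j => List.replicate (a j) 0) := by
  intro j _ c hc
  rw [List.eq_of_mem_replicate hc]
  intro h
  omega

theorem mem_bl {p q c : ℕ} {e : Bool} (h : c ∈ bl p q e) : c = 0 ∨ c = 1 := by
  unfold bl at h
  cases e
  · rw [if_neg (by decide), List.mem_append] at h
    rcases h with h | h
    · exact Or.inl (List.eq_of_mem_replicate h)
    · exact Or.inr (List.eq_of_mem_replicate h)
  · rw [if_pos rfl, List.mem_append] at h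
    rcases h with h | h
    · exact Or.inr (List.eq_of_mem_replicate h)
    · exact Or.inl (List.eq_of_mem_replicate h)

theorem ok_w2 (k : ℕ) (a b : ℕ → ℕ) (e : ℕ → Bool) : BlkOk k (fun j => bl (a j) (b j) (e j)) := by
  intro j _ c hc
  have := mem_bl hc
  intro h
  omega

theorem bl_reverse (p q : ℕ) (e : Bool) : (bl p q e).reverse = bl p q (!e) := by
  cases e <;> simp [bl]

theorem rvB_mw (k : ℕ) (a : ℕ → ℕ) :
    asm k (rvB k (fun j => List.replicate (a j) 0)) = mw k (rvv k a) := by
  unfold mw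
  apply asm_congr
  intro j _
  unfold rvB rvv
  rw [List.reverse_replicate]

/-- the orders in the reversed word -/
def re (k : ℕ) (e : ℕ → Bool) : ℕ → Bool := fun j => !(e (k - j))

theorem rvB_w2 (k : ℕ) (a b : ℕ → ℕ) (e : ℕ → Bool) :
    asm k (rvB k (fun j => bl (a j) (b j) (e j))) = w2 k (rvv k a) (rvv k b) (re k e) := by
  unfold w2
  apply asm_congr
  intro j _
  unfold rvB rvv re
  rw [bl_reverse]

theorem re_flp {k i : ℕ} (hi : i ≤ k) (e : ℕ → Bool) :
    ∀ j ≤ k, re k (flp e i) j = flp (re k e) (k - i) j := by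
  intro j hj
  unfold re flp
  by_cases h : k - j = i
  · rw [if_pos h, if_pos (by omega)]
  · rw [if_neg h, if_neg (by omega)]

theorem re_re {k : ℕ} (e : ℕ → Bool) : ∀ j ≤ k, re k (re k e) j = e j := by
  intro j hj
  unfold re
  rw [Bool.not_not]
  have h : k - (k - j) = j := by omega
  rw [h]

theorem w2_congr {k : ℕ} (a b : ℕ → ℕ) {e e' : ℕ → Bool} (h : ∀ j ≤ k, e j = e' j) :
    w2 k a b e = w2 k a b e' := by
  unfold w2
  apply asm_congr
  intro j hj
  rw [h j hj]

end MrtRow

open MrtRow

/-- **MRT** -/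
theorem mrt (hmra : MraStmt) : MrtStmt := by
  intro β
  refine ⟨?_, ?_, ?_, mir_mir β, ?_⟩
  · intro k a a'
    unfold L1
    have h := hmra β k _ _ (ok_mw k a) (ok_mw k a')
    rw [rvB_mw, rvB_mw] at h
    exact h
  · intro k a b i hi
    have key : ∀ e, Ex (MVD.mir β) k a b e i ↔ Ex β k (rvv k a) (rvv k b) (re k e) (k - i) := by
      intro e
      unfold Ex
      have h := hmra β k _ _ (ok_w2 k a b e) (ok_w2 k a b (flp e i))
      rw [rvB_w2, rvB_w2, w2_congr (rvv k a) (rvv k b) (re_flp hi e)] at h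
      exact h
    constructor
    · intro h e
      have h1 := (key (re k e)).1 (h _)
      unfold Ex at h1 ⊢
      have h2 : ∀ j ≤ k, flp (re k (re k e)) (k - i) j = flp e (k - i) j := by
        intro j hj
        unfold flp
        rw [re_re e j hj]
      rw [w2_congr _ _ (re_re e), w2_congr _ _ h2] at h1
      exact h1
    · intro h e
      exact (key e).2 (h _)
  · unfold NC2
    have h : RR (MVD.mir β) [0, 1] [1, 0] ↔ RR β [1, 0] [0, 1] := rr_mir β [0, 1] [1, 0]
    rw [h]
    constructor
    · intro h1 h2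
      exact h1 h2.symm
    · intro h1 h2
      exact h1 h2.symm
  · intro ρ hρ
    exact FIC.op_mono hρ

end Pool.Agent.MVO.H94
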