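import Mathlib
import Pool.Agent.MVO.StmtsF
import Pool.Agent.Helper23_MVO.WUW
import Pool.Agent.Helper94_MVO.DET

set_option autoImplicit false

/-! Row WU3 of the squad MVO: unbalanced identities in class c3. -/

namespace Pool.Agent.MVO.H94

open Pool.Agent.Helper14_MV Pool.Agent.Helper2_MV Pool.Agent.MVO

namespace Wu3Row

/-- the last step: a gathered letter moves to the end -/
theorem finish {θ : FIC} {u W1 W2 : List ℕ} {c d : ℕ} (h2 : L1 θ 1 (v2 d 0) (v2 0 d))
    (h4 : RR θ u (W1 ++ (List.replicate d c ++ W2))) (hA : c ∉ W1) (hB2 : c ∉ W2) :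
    RR θ u (u.filter (fun d => d ≠ c) ++ List.replicate d c) := by
  have h5 : RR θ u ((W1 ++ W2) ++ List.replicate d c) := by
    refine θ.trans h4 ?_
    have h6 := (RR.refl (β := θ) W1).append (H23.central_of h2 c W2)
    rw [List.append_assoc]
    exact h6
  have hfil : ∀ l : List ℕ, c ∉ l → l.filter (fun d => d ≠ c) = l := by
    intro l hl
    rw [List.filter_eq_self]
    intro a ha
    simp only [ne_eq, decide_not, Bool.not_eq_eq_eq_not, Bool.not_true, decide_eq_false_iff_not]
    rintro rfl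
    exact hl ha
  have hrep : (List.replicate d c).filter (fun d => d ≠ c) = [] := by
    rw [List.filter_eq_nil_iff]
    intro a ha
    rw [List.eq_of_mem_replicate ha]
    simp
  have h7 := h4.filter (fun d => decide (d ≠ c))
  rw [List.filter_append, List.filter_append, hfil W1 hA, hfil W2 hB2, hrep,
    List.nil_append] at h7
  exact θ.trans h5 (h7.symm.append (RR.refl _))

theorem not_mem_takeWhile (c : ℕ) (L : List ℕ) : c ∉ L.takeWhile (fun d => d ≠ c) := by
  intro h
  have := List.mem_takeWhile_imp h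
  simp at this

theorem not_mem_filter (c : ℕ) (L : List ℕ) : c ∉ L.filter (fun d => d ≠ c) := by
  intro h
  have := (List.mem_filter.1 h).2
  simp at this

theorem gF_split (c : ℕ) (L : List ℕ) :
    ∃ Z1 Z2, gF c L = Z1 ++ (List.replicate (L.count c) c ++ Z2) ∧ c ∉ Z1 ∧ c ∉ Z2 := by
  refine ⟨L.takeWhile (fun d => d ≠ c), (L.dropWhile (fun d => d ≠ c)).filter (fun d => d ≠ c),
    ?_, not_mem_takeWhile c L, not_mem_filter c _⟩
  unfold gF
  rw [List.append_assoc]

theorem gL_split (c : ℕ) (L : List ℕ) :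
    ∃ Z1 Z2, gL c L = Z1 ++ (List.replicate (L.count c) c ++ Z2) ∧ c ∉ Z1 ∧ c ∉ Z2 := by
  obtain ⟨Z1, Z2, h, h1, h2⟩ := gF_split c L.reverse
  refine ⟨Z2.reverse, Z1.reverse, ?_, ?_, ?_⟩
  · unfold gL
    rw [h, List.reverse_append, List.reverse_append, List.reverse_replicate, List.count_reverse,
      List.append_assoc]
  · rw [List.mem_reverse]
    exact h2
  · rw [List.mem_reverse]
    exact h1

theorem count_of_filter {c e : ℕ} (he : e ≠ c) {L L' : List ℕ}
    (h : L.filter (fun d => d ≠ c) = L'.filter (fun d => d ≠ c)) : L.count e = L'.count e := by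
  rw [← List.count_filter (p := fun d => decide (d ≠ c)) (l := L) (by simpa using he), h,
    List.count_filter (by simpa using he)]

/-- moving a letter to the end in class c3 -/
theorem move_end3 (gla : GlaStmt) (alt : AltStmt) {θ : FIC} (hc3 : ClC3 θ) {k : ℕ}
    {B : ℕ → List ℕ} (hB : BlkOk k B) (hm : AMul k B) {c : ℕ} (hc : NS k c)
    (h3 : 3 ≤ deg k (fun j => (B j).count c))
    (h1 : L1 θ k (fun j => (B j).count c) (sg k (deg k (fun j => (B j).count c))))
    (h2 : L1 θ 1 (v2 (deg k (fun j => (B j).count c)) 0) (v2 0 (deg k (fun j => (B j).count c)))) :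
    RR θ (asm k B) ((asm k B).filter (fun d => d ≠ c) ++
      List.replicate (deg k (fun j => (B j).count c)) c) := by
  obtain ⟨B1, hB1, hr, hcnt, hfil⟩ := alt θ hc3.cc hc3.l3.2.2 k B c _ hB hm hc h3 h1
  revert h1 h2 h3 hcnt
  generalize hd : deg k (fun j => (B j).count c) = d
  intro h3 h1 h2 hcnt
  have hck : (B1 k).count c = d := by
    rw [hcnt k (le_refl k)]
    unfold sg
    rw [if_pos rfl]
  have hcj : ∀ j < k, (B1 j).count c = 0 := by
    intro j hj
    rw [hcnt j hj.le]
    unfold sg
    rw [if_neg (by omega)]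
  have hdeg : deg k (fun j => (B1 j).count c) = d := by
    unfold deg
    rw [Finset.sum_eq_single_of_mem k (Finset.mem_range.2 (by omega))]
    · exact hck
    · intro j hj hjk
      rw [Finset.mem_range] at hj
      exact hcj j (by omega)
  have hm1 : AMul k B1 := by
    intro j hj e he
    by_cases hec : e = c
    · rw [hec, hdeg]
      omega
    · have h4 : ∀ i ≤ k, (B1 i).count e = (B i).count e :=
        fun i hi => count_of_filter hec (hfil i hi)
      have h5 : deg k (fun j => (B1 j).count e) = deg k (fun j => (B j).count e) := by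
        unfold deg
        apply Finset.sum_congr rfl
        intro i hi
        rw [Finset.mem_range] at hi
        exact h4 i (by omega)
      rw [h5]
      apply hm j hj
      rw [← List.count_pos_iff, ← h4 j hj]
      exact List.count_pos_iff.2 he
  have hmem : c ∈ B1 k := by
    rw [← List.count_pos_iff]
    omega
  have hg := gla θ hc3.cc k B1 c k hB1 hm1 hc (le_refl k) hmem
    (fun j hj hjk => by omega) (Or.inr ⟨hc3.l3.2.2, by rw [hdeg]; exact h3⟩)
  obtain ⟨w, hw1, hw2⟩ := H23.asm_last k (gA c k B1)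
  have hgk : gA c k B1 k = gL c (B1 k) := by
    unfold gA
    rw [if_neg (lt_irrefl k)]
  have hgj : ∀ j < k, c ∉ gA c k B1 j := by
    intro j hj
    have e : gA c k B1 j = gF c (B1 j) := by
      unfold gA
      rw [if_pos hj]
    rw [e]
    obtain ⟨Z1, Z2, hZ, hZ1, hZ2⟩ := gF_split c (B1 j)
    rw [hZ, hcj j hj, List.replicate_zero, List.nil_append, List.mem_append]
    rintro (h | h)
    · exact hZ1 h
    · exact hZ2 h
  have hcw := hw2 c hc hgj
  obtain ⟨Z1, Z2, hZ, hZ1, hZ2⟩ := gL_split c (B1 k)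
  rw [hck] at hZ
  rw [hw1, hgk, hZ] at hg
  have h4 : RR θ (asm k B) ((w ++ Z1) ++ (List.replicate d c ++ Z2)) := by
    rw [List.append_assoc]
    exact θ.trans hr hg
  apply finish h2 h4 _ hZ2
  rw [List.mem_append]
  rintro (h | h)
  · exact hcw h
  · exact hZ1 h

theorem oo_mono {β θ : FIC} (h : β ≤ θ) (ho : OO β) : OO θ := by
  have hle : ∀ a b, L1 β 1 a b → L1 θ 1 a b := fun a b hl => h _ _ hl
  rcases ho with h1 | h1 | h1 | h1
  · exact Or.inl (hle _ _ h1)
  · exact Or.inr (Or.inl (hle _ _ h1))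
  · exact Or.inr (Or.inr (Or.inl (hle _ _ h1)))
  · exact Or.inr (Or.inr (Or.inr ⟨hle _ _ h1.1, hle _ _ h1.2⟩))

theorem cent_mono {β θ : FIC} (h : β ≤ θ) (hc : Cent β) : Cent θ := by
  obtain ⟨K, hK⟩ := hc
  exact ⟨K, fun m hm => h _ _ (hK m hm)⟩

theorem fic_le_refl (θ : FIC) : θ ≤ θ := fun _ _ h => h

/-- if the square of a letter commutes with another letter then `IA` -/
theorem ia_of {θ : FIC} (h : RR θ [3, 3, 0] [0, 3, 3]) : MVD.IA θ := by
  have h1 : RR θ ([0, 2] ++ [3, 3, 0]) ([0, 2] ++ [0, 3, 3]) := (RR.refl _).append h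
  exact h1.symm

/-- the case in which neither `IA` nor `IAd` holds -/
theorem wuC (hRen : RenStmt) (gla : GlaStmt) (alt : AltStmt) (hA : WuaStmt) (hB : WubStmt)
    (hC : WucStmt) (hD : WudStmt) {θ : FIC} (hc3 : ClC3 θ) (hO : OO θ) (hCent : Cent θ)
    (hia : ¬ MVD.IA θ) : WUAt θ := by
  intro u v c huv hne
  have hCT : H23.CentT θ := H23.centT_of (fic_le_refl θ) hCent
  by_cases h0 : u.count c = 0
  · rw [h0, List.replicate_zero, List.append_nil]
    have : u.filter (fun d => decide (d ≠ c)) = u := by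
      rw [List.filter_eq_self]
      intro a ha
      have hc : c ∉ u := List.count_eq_zero.1 h0
      simp only [ne_eq, decide_not, Bool.not_eq_eq_eq_not, Bool.not_true,
        decide_eq_false_iff_not]
      rintro rfl
      exact hc ha
    rw [this]
    exact RR.refl _
  have hN : NC2 θ := by
    intro h
    apply hia
    apply ia_of
    have h1 := h.sub (fun c => if c = 0 then [3, 3] else [0])
    exact h1
  have h2 : 2 ≤ u.count c := by
    by_contra hlt
    have h1 : u.count c = 1 := by omega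
    have := H23.simple_of hN hCT huv h1
    omega
  obtain ⟨k, π, B, hu, hBk, hm⟩ := hRen u
  have huv' : RR θ (u.map π) (v.map π) := H23.rr_map π huv
  have hv1 : (v.map π).filter (fun c => decide (2 ≤ c ∧ c ≤ k + 1)) = seps k := by
    refine H23.keep_seps hN hCT huv' ?_
    rw [hu]
    exact filter_sep hBk
  obtain ⟨B', hB', hv⟩ := dec hv1
  have hB'k : BlkOk k B' := fun j _ c hc => hB' j c hc
  rw [hu, hv] at huv'
  have hcu : (asm k B).count (π c) = u.count c := by
    rw [← hu]
    exact List.count_map_of_injective u π π.injective c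
  have hcv : (asm k B').count (π c) = v.count c := by
    rw [← hv]
    exact List.count_map_of_injective v π π.injective c
  have hns : NS k (π c) := by
    intro hs
    have := count_sep hBk hs.1 hs.2
    omega
  have hdu : deg k (fun j => (B j).count (π c)) = u.count c := by
    rw [← count_asm hns, hcu]
  have hdv : deg k (fun j => (B' j).count (π c)) = v.count c := by
    rw [← count_asm hns, hcv]
  have hL := H23.one_part hns hBk hB'k huv'
  obtain ⟨h3, h4⟩ := H23.wu1_all hA hB hC hD (fic_le_refl θ) hO hCT (by rw [hdu]; exact h2)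
    (by rw [hdu, hdv]; exact hne) hL
  have hd3 : 3 ≤ deg k (fun j => (B j).count (π c)) := by
    by_contra hlt
    have hd2 : deg k (fun j => (B j).count (π c)) = 2 := by omega
    rw [hd2] at h4
    exact hia (ia_of (H23.central_of h4 3 [0]))
  have h5 := move_end3 gla alt hc3 hBk hm hns hd3 (h3 k (le_refl k)) h4
  rw [hdu, ← hu, H23.map_filter_ne] at h5
  have h6 := H23.rr_map (π⁻¹ : Equiv.Perm ℕ) h5
  rw [List.map_append, List.map_map, List.map_map, List.map_replicate] at h6
  have e : ((π⁻¹ : Equiv.Perm ℕ) : ℕ → ℕ) ∘ (π : ℕ → ℕ) = id := by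
    funext x
    simp
  rw [e, List.map_id, List.map_id] at h6
  simpa using h6

end Wu3Row

open Wu3Row

/-- **WU3** -/
theorem wu3 (hRen : RenStmt) (gla : GlaStmt) (alt : AltStmt) (hA : WuaStmt) (hB : WubStmt)
    (hC : WucStmt) (hD : WudStmt) (wuw : WuwStmt) (gac : GacStmt) (mrc : MrcStmt)
    (mrd : MrdStmt) : Wu3Stmt := by
  intro β hβ hOβ hCβ θ hle
  have hθ := clC3_mono hle hβ
  have hO := oo_mono hle hOβ
  have hCe := cent_mono hle hCβ
  have key : WUAt θ := by
    by_cases h1 : MVD.IA θ
    · have hc : ClC1 θ := ⟨hθ.cc, h1⟩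
      exact wuw θ hO hCe (gac θ hc) θ (fic_le_refl θ)
    by_cases h2 : MVD.IAd θ
    · obtain ⟨m1, m2, _, _, _, _, _, m8, m9, m10, m11, _, _, _, _, m16, _⟩ := mrc θ
      have hc : ClC1 (MVD.mir θ) := ⟨m1.2 hθ.cc, m2.2 h2⟩
      have hO' : OO (MVD.mir θ) := by
        rcases hO with h | h | h | h
        · exact Or.inl (m8.2 h)
        · exact Or.inr (Or.inr (Or.inl (m10.2 h)))
        · exact Or.inr (Or.inl (m9.2 h))
        · exact Or.inr (Or.inr (Or.inr (m11.2 h)))
      exact mrd.2.2 θ (wuw _ hO' (m16 hCe) (gac _ hc) _ (fic_le_refl _))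
    · exact wuC hRen gla alt hA hB hC hD hθ hO hCe h1
  exact key

end Pool.Agent.MVO.H94
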